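import Pool.Agent.Lib.UIPQ.IDefs

/-!
# Definitions for part B: potentials, weights, the fan surgery, sums over quadrangulations
-/

namespace UIPQ

open Finset

variable {X : Type}

/-- The degree of the start vertex of the dart `x`. -/
noncomputable def CMap.deg (m : CMap X) (x : X) : ℕ := Function.minimalPeriod m.r x

/-- The map with renamed darts. -/
def CMap.relabel {X' : Type} (m : CMap X) (e : X ≃ X') : CMap X' where
  r := (e.symm.trans m.r).trans e
  k := (e.symm.trans m.k).trans e
  k_k := fun x => by simp [m.k_k]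
  k_ne := fun x h => m.k_ne (e.symm x) (by
    have := congrArg e.symm h
    simpa using this)

/-- The density at the dart `x` of the energy form `β`. -/
noncomputable def CMap.be (m : CMap X) (lam : ℝ) (u w : X → ℝ) (x : X) : ℝ :=
  ((u x - u (m.k x)) * (w x - w (m.k x)) + lam * (u x * w x) + lam * (u (m.k x) * w (m.k x))) / 2

/-- The energy form with killing. -/
noncomputable def CMap.beta [Fintype X] (m : CMap X) (lam : ℝ) (u w : X → ℝ) : ℝ :=
  ∑ x, m.be lam u w x

/-- `u` is the potential of the vertex of `T`. -/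
structure CMap.IsPot [Fintype X] (m : CMap X) (lam : ℝ) (T : X) (u : X → ℝ) : Prop where
  inv : m.RInv u
  one : u T = 1
  orth : ∀ w : X → ℝ, m.RInv w → w T = 0 → m.beta lam u w = 0

open Classical in
/-- The potential of the vertex of `T`. -/
noncomputable def CMap.pot [Fintype X] (m : CMap X) (lam : ℝ) (T : X) : X → ℝ :=
  if h : ∃ u, m.IsPot lam T u then h.choose else 0

/-- The weight of the dart `T`. -/
noncomputable def CMap.W [Fintype X] (m : CMap X) (lam κ : ℝ) (T : X) : ℝ :=
  min 1 (κ / m.capH lam T)

/-- The weighted energy density. -/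
noncomputable def CMap.pi [Fintype X] (m : CMap X) (lam κ : ℝ) (x : X) : ℝ :=
  ∑ T, m.W lam κ T * m.be lam (m.pot lam T) (m.pot lam T) x

open Classical in
/-- The weighted energy density of the edges at the vertex of `y`. -/
noncomputable def CMap.star [Fintype X] (m : CMap X) (lam κ : ℝ) (y : X) : ℝ :=
  ∑ x ∈ univ.filter (fun x => m.r.SameCycle y x), 2 * m.pi lam κ x

/-- The new darts of the fan surgery:
`(i,0) = B_i`, `(i,1) = b_i`, `(i,2) = B'_i`, `(i,3) = b'_i`, `i = 0..6`. -/
abbrev Fan : Type := Fin 7 × Fin 4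

/-- Reversal of the new darts: `B_i ↔ b_i`, `B'_i ↔ b'_i`. -/
def fanK : Equiv.Perm Fan where
  toFun p := (p.1, ![1, 0, 3, 2] p.2)
  invFun p := (p.1, ![1, 0, 3, 2] p.2)
  left_inv := by decide
  right_inv := by decide

/-- The four-cycles `B_i → b'_i → B'_i → b_{i-1} → B_i` (indices modulo 7). -/
def fanC : Equiv.Perm Fan where
  toFun p := ![(p.1, 3), (p.1 + 1, 0), (p.1 - 1, 1), (p.1, 2)] p.2
  invFun p := ![(p.1 - 1, 1), (p.1 + 1, 2), (p.1, 3), (p.1, 0)] p.2
  left_inv := by decide
  right_inv := by decide

/-- The new darts which are exchanged with the marked old darts: `b_6`, and `b'_i`. -/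
def mark : Fin 8 → Fan := Fin.cons (6, 1) (fun i => (i, 3))

open Classical in
/-- The function exchanging `α μ` and `β μ` in the sum of two sets. -/
noncomputable def exchFun {A B M : Type} (α : M → A) (β : M → B) : A ⊕ B → A ⊕ B
  | Sum.inl x => if h : ∃ μ, α μ = x then Sum.inr (β h.choose) else Sum.inl x
  | Sum.inr y => if h : ∃ μ, β μ = y then Sum.inl (α h.choose) else Sum.inr y

open Classical in
/-- The involution exchanging `α μ` and `β μ` (the identity if `α` or `β` is not injective). -/
noncomputable def exch {A B M : Type} (α : M → A) (β : M → B) : Equiv.Perm (A ⊕ B) :=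
  if h : Function.Involutive (exchFun α β) then h.toPerm else 1

theorem fanK_fanK (p : Fan) : fanK (fanK p) = p := by
  revert p
  decide

theorem fanK_ne (p : Fan) : fanK p ≠ p := by
  revert p
  decide

/-- The fan surgery, for marked darts `a 0, ..., a 7` at the same vertex: `f' = τ (f ⊕ c) τ`, `k' = k ⊕ κ`
and `r' = f' k'`. -/
noncomputable def fanMap (m : CMap X) (a : Fin 8 → X) : CMap (X ⊕ Fan) where
  r := exch a mark * Equiv.sumCongr m.f fanC * exch a mark * Equiv.sumCongr m.k fanK
  k := Equiv.sumCongr m.k fanK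
  k_k := by
    rintro (x | p)
    · simp [m.k_k]
    · simp [fanK_fanK]
  k_ne := by
    rintro (x | p) h
    · exact m.k_ne x (Sum.inl_injective h)
    · exact fanK_ne p (Sum.inr_injective h)

/-- The marked darts `y, r^(q 0) y, ..., r^(q 6) y`. -/
def fanA (m : CMap X) (y : X) (q : Fin 7 → ℕ) : Fin 8 → X := Fin.cons y (fun i => m.r^[q i] y)

/-- The surgery at the dart `y` with the seven diagonals `q`. -/
noncomputable def fan (m : CMap X) (y : X) (q : Fin 7 → ℕ) : CMap (X ⊕ Fan) :=
  fanMap m (fanA m y q)

open Classical in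
/-- The possible diagonals at a vertex of degree `d`. -/
noncomputable def fans (d : ℕ) : Finset (Fin 7 → ℕ) :=
  (Fintype.piFinset (fun _ => range d)).filter (fun q => StrictMono q ∧ 1 ≤ q 0)

open Classical in
/-- The darts of the new map at the eight vertices into which the vertex of `y` has been split. -/
noncomputable def fanSet [Fintype X] (m : CMap X) (y : X) : Finset (X ⊕ Fan) :=
  univ.filter (fun z => (∃ x, z = Sum.inl x ∧ m.r.SameCycle y x) ∨ (∃ i, z = Sum.inr (i, 1)) ∨
    ∃ i, z = Sum.inr (i, 3))

/-- The eight darts at the eight new vertices, in terms of the dart `B = B_0`. -/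
def CMap.foot (m : CMap X) (B : X) (i : Fin 8) : X :=
  if i.val < 7 then m.k (m.r^[i.val] B) else m.k (m.f (m.f B))

instance (N : ℕ) : Finite (CMap (Fin N)) :=
  Finite.of_injective (fun m : CMap (Fin N) => (m.r, m.k)) (by
    intro a b h
    have h1 := congrArg Prod.fst h
    have h2 := congrArg Prod.snd h
    exact CMap.ext h1 h2)

/-- The finite set of the quadrangulations with `n + 1` faces. -/
noncomputable def QF (n : ℕ) : Finset (CMap (Fin (4 * n + 4))) := (Set.toFinite (Quads n)).toFinset

theorem mem_QF {n : ℕ} {m : CMap (Fin (4 * n + 4))} : m ∈ QF n ↔ m.IsQuad := by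
  simp [QF, Quads]

/-- Normalised sums over the quadrangulations with `n + 1` faces and their darts. -/
noncomputable def Sn (n : ℕ) (F : CMap (Fin (4 * n + 4)) → Fin (4 * n + 4) → ℝ) : ℝ :=
  (∑ m ∈ QF n, ∑ x, F m x) / ((4 * n + 4).factorial : ℝ)

end UIPQ
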