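import Mathlib

/-!
# The uniform infinite planar quadrangulation: definitions

A planar map is encoded by its set of darts (oriented edges) with two permutations:
`r` is the next dart around the start vertex, `k` reverses a dart.
Vertices are the orbits of `r`, edges the orbits of `k`, faces the orbits of `f = r * k`.
-/

namespace UIPQ

open MeasureTheory Filter

/-- A map (surface map without boundary) with set of darts `X`. -/
@[ext] structure CMap (X : Type) where
  /-- next dart around the start vertex -/
  r : Equiv.Perm X
  /-- the reversed dart -/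
  k : Equiv.Perm X
  k_k : ∀ x, k (k x) = x
  k_ne : ∀ x, k x ≠ x

namespace CMap

variable {X : Type} (m : CMap X)

/-- The vertices: orbits of `r`. -/
def Vertex : Type := Quotient (Equiv.Perm.SameCycle.setoid m.r)

/-- The start vertex of a dart. -/
def vert (x : X) : m.Vertex := Quotient.mk (Equiv.Perm.SameCycle.setoid m.r) x

/-- The face permutation: the next dart along the face. -/
def f : Equiv.Perm X := m.r * m.k

/-- The faces: orbits of `f`. -/
def Face : Type := Quotient (Equiv.Perm.SameCycle.setoid m.f)

/-- The map is connected: any two darts are joined by a chain of moves `r`, `k` and their inverses. -/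
def Connected : Prop :=
  ∀ x y : X, Relation.EqvGen (fun a b => b = m.r a ∨ b = m.k a) x y

/-- Planar quadrangulation on a finite set of darts: connected, every face has four sides, and
`V - E + F = 2` with `E = |X| / 2`. -/
structure IsQuad : Prop where
  conn : m.Connected
  face4 : ∀ x, Function.minimalPeriod m.f x = 4
  euler : 2 * (Nat.card m.Vertex + Nat.card m.Face) = Nat.card X + 4

/-- The darts starting at the vertex `v`. -/
def darts (v : m.Vertex) : Set X := {x | m.vert x = v}

/-- Every vertex has finite degree. -/
def LocFinite : Prop := ∀ v : m.Vertex, (m.darts v).Finite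

/-- The ball of radius `R` around the vertex `v₀` for the graph distance. -/
def ball (v₀ : m.Vertex) : ℕ → Set m.Vertex
  | 0 => {v₀}
  | R + 1 => ball v₀ R ∪ {v | ∃ x, m.vert x ∈ ball v₀ R ∧ m.vert (m.k x) = v}

/-- The graph distance. -/
noncomputable def dist (v₀ v : m.Vertex) : ℕ := sInf {n | v ∈ m.ball v₀ n}

/-- `h` is harmonic: its value at every vertex is the mean of its values at the neighbours, with
edge multiplicity. -/
def Harmonic (h : m.Vertex → ℝ) : Prop :=
  ∀ v, h v = (∑ᶠ x ∈ m.darts v, h (m.vert (m.k x))) / ((m.darts v).ncard : ℝ)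

/-- The darts which start in the ball of radius `R` around the start vertex of `x₀`. -/
def ballDarts (x₀ : X) (R : ℕ) : Set X := {x | m.vert x ∈ m.ball (m.vert x₀) R}

end CMap

/-- The rooted maps `(m, x₀)` and `(m', x₀')` have isomorphic balls of radius `R` around their root:
a bijection between the darts starting in the two balls which respects the roots, the rotations
around the vertices, and the reversal of darts. -/
def BallIso {X X' : Type} (R : ℕ) (m : CMap X) (x₀ : X) (m' : CMap X') (x₀' : X') : Prop :=
  ∃ e : X → X', Set.BijOn e (m.ballDarts x₀ R) (m'.ballDarts x₀' R) ∧ e x₀ = x₀' ∧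
    (∀ x ∈ m.ballDarts x₀ R, e (m.r x) = m'.r (e x)) ∧
    (∀ x ∈ m.ballDarts x₀ R, ∀ y ∈ m.ballDarts x₀ R, (m.k x = y ↔ m'.k (e x) = e y))

/-- The set of planar quadrangulations with `n + 1` faces, with labelled darts. -/
def Quads (n : ℕ) : Set (CMap (Fin (4 * n + 4))) := {m | m.IsQuad}

/-- The probability that a uniform rooted planar quadrangulation with `n + 1` faces has the
property `E`. The root is the dart `0`; the labelled quadrangulations with `n + 1` faces are
equidistributed over the rooted ones, since a rooted map has no automorphism. -/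
noncomputable def unifProb (n : ℕ) (E : CMap (Fin (4 * n + 4)) → Fin (4 * n + 4) → Prop) : ℝ :=
  ({m ∈ Quads n | E m 0}.ncard : ℝ) / ((Quads n).ncard : ℝ)

/-- The random rooted map `(M, 0)` is a uniform infinite planar quadrangulation: it is almost surely
connected with finite degrees and infinitely many darts, and it is the local limit in distribution of
the uniform rooted planar quadrangulations with `n` faces. -/
structure IsUIPQ {Ω : Type} [MeasurableSpace Ω] (P : Measure Ω) (M : Ω → CMap ℕ) : Prop where
  conn : ∀ᵐ ω ∂P, (M ω).Connected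
  locFinite : ∀ᵐ ω ∂P, (M ω).LocFinite
  meas : ∀ (R s : ℕ) (N : CMap (Fin s)) (y : Fin s), MeasurableSet {ω | BallIso R (M ω) 0 N y}
  lim : ∀ (R s : ℕ) (N : CMap (Fin s)) (y : Fin s),
    Tendsto (fun n => unifProb n (fun m x => BallIso R m x N y)) atTop
      (nhds (P {ω | BallIso R (M ω) 0 N y}).toReal)

/-- The space of harmonic functions `h` with `|h x| ≤ C (1 + d(ρ, x)) ^ k`, where `ρ` is the vertex
of the root dart `x₀`. -/
noncomputable def polyHarmonic {X : Type} (m : CMap X) (x₀ : X) (hm : m.LocFinite) (k : ℝ) :
    Submodule ℝ (m.Vertex → ℝ) where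
  carrier := {h | m.Harmonic h ∧ ∃ C : ℝ, ∀ v, |h v| ≤ C * (1 + (m.dist (m.vert x₀) v : ℝ)) ^ k}
  zero_mem' := by
    refine ⟨fun v => by simp, 0, fun v => by simp⟩
  add_mem' := by
    rintro a b ⟨ha, Ca, hCa⟩ ⟨hb, Cb, hCb⟩
    refine ⟨fun v => ?_, Ca + Cb, fun v => ?_⟩
    · have h1 := ha v
      have h2 := hb v
      have : (∑ᶠ x ∈ m.darts v, (a + b) (m.vert (m.k x))) =
          (∑ᶠ x ∈ m.darts v, a (m.vert (m.k x))) + ∑ᶠ x ∈ m.darts v, b (m.vert (m.k x)) := by
        rw [← finsum_mem_add_distrib (hm v)]
        rfl
      rw [this, add_div, ← h1, ← h2]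
      rfl
    · have := hCa v
      have := hCb v
      calc |(a + b) v| ≤ |a v| + |b v| := abs_add_le _ _
        _ ≤ _ := by rw [add_mul]; linarith
  smul_mem' := by
    rintro c a ⟨ha, Ca, hCa⟩
    refine ⟨fun v => ?_, |c| * Ca, fun v => ?_⟩
    · have h1 := ha v
      have : (∑ᶠ x ∈ m.darts v, (c • a) (m.vert (m.k x))) =
          c * ∑ᶠ x ∈ m.darts v, a (m.vert (m.k x)) := by
        rw [finsum_mem_eq_finite_toFinset_sum _ (hm v), finsum_mem_eq_finite_toFinset_sum _ (hm v),
          Finset.mul_sum]
        rfl
      rw [this, mul_div_assoc, ← h1]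
      rfl
    · have := hCa v
      calc |(c • a) v| = |c| * |a v| := by simp [abs_mul]
        _ ≤ |c| * (Ca * (1 + (m.dist (m.vert x₀) v : ℝ)) ^ k) :=
            mul_le_mul_of_nonneg_left (hCa v) (abs_nonneg _)
        _ = _ := by ring

end UIPQ
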