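import Pool.Agent.Lib.UIPQ.Defs

/-!
# Finite planar maps: definitions for the analysis of the random walk on the darts

`X` is the finite set of darts. The dart graph has an edge between `x` and `k x` and between `x` and
`r x`. The walk on the darts chooses one of the four permutations `1, k, r, r⁻¹` uniformly.
-/

namespace UIPQ

open Finset

variable {X : Type}

/-- Planar map on a finite set of darts: connected, and `V - E + F = 2`. -/
structure CMap.Planar (m : CMap X) : Prop where
  conn : m.Connected
  euler : 2 * (Nat.card m.Vertex + Nat.card m.Face) = Nat.card X + 4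

/-- The dual map: vertices and faces are exchanged. -/
def CMap.dual (m : CMap X) : CMap X := ⟨m.f, m.k, m.k_k, m.k_ne⟩

/-- The sum of `G` over the orbit of `x` under the permutation `σ`. -/
noncomputable def orbSum [Fintype X] (σ : Equiv.Perm X) (G : X → ZMod 2) (x : X) : ZMod 2 := by
  classical exact ∑ y ∈ univ.filter (fun y => σ.SameCycle x y), G y

/-- Adjacency in the dart graph. -/
def CMap.HAdj (m : CMap X) (x y : X) : Prop := y = m.k x ∨ y = m.r x ∨ x = m.r y

/-- `S` is connected in the dart graph. -/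
def CMap.HConn (m : CMap X) (S : Set X) : Prop :=
  ∀ x ∈ S, ∀ y ∈ S, Relation.ReflTransGen (fun a b => a ∈ S ∧ b ∈ S ∧ m.HAdj a b) x y

/-- The four permutations used by the walk. -/
def CMap.u (m : CMap X) (i : Fin 4) : Equiv.Perm X := ![1, m.k, m.r, m.r⁻¹] i

/-- The transition probabilities: `pt t x y` is the probability that the walk started at `x` is at
`y` at time `t`. -/
noncomputable def CMap.pt (m : CMap X) : ℕ → X → X → ℝ
  | 0, x, y => by classical exact if x = y then 1 else 0
  | t + 1, x, y => (∑ i : Fin 4, CMap.pt m t x (m.u i y)) / 4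

/-- The average entropy at time `t`. -/
noncomputable def CMap.ent [Fintype X] (m : CMap X) (t : ℕ) : ℝ :=
  (∑ x : X, ∑ y : X, Real.negMulLog (m.pt t x y)) / (Fintype.card X : ℝ)

/-- The entropy increment. -/
noncomputable def CMap.dent [Fintype X] (m : CMap X) (t : ℕ) : ℝ := m.ent (t + 1) - m.ent t

/-- The Green function up to time `T`. -/
noncomputable def CMap.green (m : CMap X) (T : ℕ) (x v : X) : ℝ := ∑ t ∈ range T, m.pt t x v

/-- The congestion at `v` of the flows from all the points `x`. -/
noncomputable def CMap.cong [Fintype X] (m : CMap X) (T : ℕ) (v : X) : ℝ :=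
  ∑ x : X, ∑ i : Fin 4, |m.green T x v - m.green T x (m.u i v)| / 4

/-- The mean square congestion. -/
noncomputable def CMap.Q [Fintype X] (m : CMap X) (T : ℕ) : ℝ :=
  (∑ v : X, (m.cong T v) ^ 2) / (Fintype.card X : ℝ)

/-- `v` is visited by the path `y, π y, π² y, ...` up to its first visit of `x` (included). -/
def onPath (π : X → X) (x y v : X) : Prop := ∃ n : ℕ, π^[n] y = v ∧ ∀ j < n, π^[j] y ≠ x

/-- `q v` is a probability law on `X` for every `v`. -/
structure IsLaw [Fintype X] (q : X → X → ℝ) : Prop where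
  nonneg : ∀ v w, 0 ≤ q v w
  sum_one : ∀ v, ∑ w : X, q v w = 1

/-- The probability that `v` is on the path from `y` to `x`, when the values `π v` are independent
with laws `q v`. -/
noncomputable def pathProb [Fintype X] [DecidableEq X] (q : X → X → ℝ) (x y v : X) : ℝ := by
  classical exact ∑ π : X → X, if onPath π x y v then ∏ w : X, q w (π w) else 0

/-- The mass carried by the transition probabilities of order `2^(-j)`, off the diagonal. -/
noncomputable def CMap.layer [Fintype X] (m : CMap X) (T j : ℕ) : ℝ := by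
  classical exact (∑ x : X, ∑ y : X,
    if x ≠ y ∧ (1 / 2 : ℝ) ^ (j + 1) < m.pt T x y ∧ m.pt T x y ≤ (1 / 2 : ℝ) ^ j then m.pt T x y
    else 0) / (Fintype.card X : ℝ)

/-- `f_T = 2 T^(-1/2) ∑_{t<T} (t+1)^(1/2) d_t`. -/
noncomputable def CMap.fT [Fintype X] (m : CMap X) (T : ℕ) : ℝ :=
  2 / Real.sqrt T * ∑ t ∈ range T, Real.sqrt (t + 1) * m.dent t

/-- The Dirichlet energy of a function on the darts, in the dart graph. -/
noncomputable def CMap.EH [Fintype X] (m : CMap X) (χ : X → ℝ) : ℝ :=
  (∑ x : X, (χ x - χ (m.k x)) ^ 2) / 2 + ∑ x : X, (χ x - χ (m.r x)) ^ 2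

/-- The capacity of the dart `x` in the dart graph, with killing rate `lam`. -/
noncomputable def CMap.capH [Fintype X] (m : CMap X) (lam : ℝ) (x : X) : ℝ :=
  sInf {e | ∃ χ : X → ℝ, χ x = 1 ∧ e = m.EH χ + lam * ∑ y : X, χ y ^ 2}

/-- `u` is a function on the vertices. -/
def CMap.RInv (m : CMap X) (u : X → ℝ) : Prop := ∀ x, u (m.r x) = u x

/-- The Dirichlet energy of a function on the vertices. -/
noncomputable def CMap.En [Fintype X] (m : CMap X) (u : X → ℝ) : ℝ :=
  (∑ x : X, (u x - u (m.k x)) ^ 2) / 2

/-- The capacity of the vertex of the dart `x`, with killing rate `lam` times the degree. -/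
noncomputable def CMap.cap [Fintype X] (m : CMap X) (lam : ℝ) (x : X) : ℝ :=
  sInf {e | ∃ u : X → ℝ, m.RInv u ∧ u x = 1 ∧ e = m.En u + lam * ∑ y : X, u y ^ 2}

theorem CMap.k_symm (m : CMap X) : m.k.symm = m.k := by
  ext x
  rw [Equiv.symm_apply_eq, m.k_k]

theorem CMap.f_apply (m : CMap X) (x : X) : m.f x = m.r (m.k x) := rfl

theorem CMap.dual_f (m : CMap X) : m.dual.f = m.r := by
  ext x
  change m.r (m.k (m.k x)) = m.r x
  rw [m.k_k]

theorem CMap.HAdj.symm {m : CMap X} {x y : X} (h : m.HAdj x y) : m.HAdj y x := by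
  rcases h with h | h | h
  · left
    rw [h, m.k_k]
  · right; right
    exact h
  · right; left
    exact h

theorem CMap.pt_zero (m : CMap X) [DecidableEq X] (x y : X) : m.pt 0 x y = if x = y then 1 else 0 := by
  unfold CMap.pt
  split_ifs <;> rfl

theorem CMap.pt_succ (m : CMap X) (t : ℕ) (x y : X) :
    m.pt (t + 1) x y = (m.pt t x y + m.pt t x (m.k y) + m.pt t x (m.r y) + m.pt t x (m.r⁻¹ y)) / 4 := by
  rw [CMap.pt, Fin.sum_univ_four]
  rfl

end UIPQ
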