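import Pool.Agent.Lib.UIPQ.FDefs

/-!
# Definitions for the interface between the parts of the proof
-/

namespace UIPQ

variable {X : Type}

/-- `x` and `y` are joined by a path inside `S` (moves `k`, `r`, `r⁻¹`). For `x ∉ S` only `y = x`. -/
def CMap.Joined (m : CMap X) (S : Set X) (x y : X) : Prop :=
  Relation.ReflTransGen (fun a b => a ∈ S ∧ b ∈ S ∧ m.HAdj a b) x y

/-- `S` is a set of vertices. -/
def CMap.VSet (m : CMap X) (S : Set X) : Prop := ∀ x, m.r x ∈ S ↔ x ∈ S

/-- The planarity property (PL) of maps all of whose faces have four sides: a finite set of edges which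
meets every face in an even number of sides is the set of edges between two classes of vertices. -/
def CMap.PL (m : CMap X) : Prop :=
  ∀ G : X → ZMod 2, (Function.support G).Finite → (∀ x, G (m.k x) = G x) →
    (∀ x, G x + G (m.f x) + G (m.f (m.f x)) + G (m.f (m.f (m.f x))) = 0) →
    ∃ c : X → ZMod 2, (∀ x, c (m.r x) = c x) ∧ ∀ x, G x = c x + c (m.k x)

/-- The complement of a finite set of vertices has at most two infinite components. -/
def CMap.TwoEnds (m : CMap X) : Prop :=
  ∀ D : Set X, D.Finite → m.VSet D → ∀ x y z : X, x ∉ D → y ∉ D → z ∉ D →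
    {w | m.Joined Dᶜ x w}.Infinite → {w | m.Joined Dᶜ y w}.Infinite →
    {w | m.Joined Dᶜ z w}.Infinite → m.Joined Dᶜ x y ∨ m.Joined Dᶜ x z ∨ m.Joined Dᶜ y z

/-- There is a function on the vertices equal to `1` at the vertex of `x₀` and to `0` outside the ball
of radius `n`, whose Dirichlet energy is at most `e`. -/
def CMap.LowCond (m : CMap X) (x₀ : X) (n : ℕ) (e : ℝ) : Prop :=
  ∃ w : X → ℝ, m.RInv w ∧ w x₀ = 1 ∧ (∀ x, x ∉ m.ballDarts x₀ n → w x = 0) ∧
    (∑ᶠ x, (w x - w (m.k x)) ^ 2) / 2 ≤ e

end UIPQ
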